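import Mathlib

open Finset

namespace H11.Coll

/-- `T` is a generalized Collatz mapping of relatively prime type with modulus `d`. -/
def IsGC (d : ℕ) (T : ℤ → ℤ) : Prop :=
  2 ≤ d ∧ ∃ m r : ℕ → ℤ, (∀ i < d, m i ≠ 0 ∧ r i ≡ i * m i [ZMOD d]) ∧
    IsCoprime (∏ i ∈ range d, m i) (d : ℤ) ∧
    ∀ (x : ℤ), ∀ i < d, x ≡ (i : ℕ) [ZMOD d] → d * T x = m i * x - r i

/-- The transition probability `q_{ij}(m) = μ(B(i,m) ∩ T⁻¹ B(j,m)) / μ(B(i,m))`. The set
`B(i,m) ∩ T⁻¹ B(j,m)` is a union of classes mod `d m`, so its measure is the number of its elements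
in `[0, d m)` divided by `d m`; and `μ(B(i,m)) = 1/m`. -/
noncomputable def q (d : ℕ) (T : ℤ → ℤ) (m : ℕ) (i j : ZMod m) : ℚ :=
  ((((Ico (0 : ℤ) (d * m)).filter fun x : ℤ => (x : ZMod m) = i ∧ (T x : ZMod m) = j).card : ℚ) /
    (d * m)) / (1 / m)

/-- A closed communicating class of the chain `Q_T(m)`. -/
def IsRec (d : ℕ) (T : ℤ → ℤ) (m : ℕ) (C : Set (ZMod m)) : Prop :=
  C.Nonempty ∧ (∀ i ∈ C, ∀ j, 0 < q d T m i j → j ∈ C) ∧
    ∀ i ∈ C, ∀ j ∈ C, Relation.ReflTransGen (fun a b => 0 < q d T m a b) i j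

/-- The collection `𝓔(T)`. -/
def erg (d : ℕ) (T : ℤ → ℤ) : Set (Set ℤ) :=
  {S | ∃ m : ℕ, 2 ≤ m ∧ ∃ C, IsRec d T m C ∧ S = {x : ℤ | (x : ZMod m) ∈ C}}

def T0 (x : ℤ) : ℤ := 2 * (x / 5) + 1

theorem q_pos (m : ℕ) (hm : 2 ≤ m) (i j : ZMod m) :
    0 < q 5 T0 m i j ↔ ∃ x : ℤ, (x : ZMod m) = i ∧ (T0 x : ZMod m) = j := by
  have h0 : (0 : ℚ) < m := by exact_mod_cast (by omega : 0 < m)
  have h1 : (0 : ℤ) < 5 * m := by omega
  unfold q
  rw [div_pos_iff_of_pos_right (by positivity), div_pos_iff_of_pos_right (by positivity),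
    Nat.cast_pos, card_pos]
  constructor
  · rintro ⟨x, hx⟩
    exact ⟨x, (mem_filter.1 hx).2⟩
  · rintro ⟨x, rfl, rfl⟩
    have e := Int.emod_add_mul_ediv x (5 * m)
    set k := x / (5 * m)
    set y := x % (5 * m)
    refine ⟨y, mem_filter.2 ⟨mem_Ico.2 ⟨Int.emod_nonneg _ h1.ne', ?_⟩, ?_, ?_⟩⟩
    · exact_mod_cast Int.emod_lt_of_pos _ h1
    · rw [← e]; push_cast; simp
    · have : T0 x = T0 y + 2 * (m * k) := by
        unfold T0
        rw [← e, show y + 5 * m * k = y + 5 * (m * k) by ring, Int.add_mul_ediv_left _ _ (by norm_num)]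
        ring
      rw [this]; push_cast; simp

theorem to_one (P : ℤ → Prop) (h : ∀ x, P x → P (T0 x)) (n : ℕ) : P n → P 1 := by
  induction n using Nat.strong_induction_on with
  | _ n ih =>
    intro hn
    have := h _ hn
    by_cases h5 : n < 5
    · rwa [show T0 n = 1 by unfold T0; omega] at this
    · refine ih (2 * (n / 5) + 1) (by omega) ?_
      rwa [show ((2 * (n / 5) + 1 : ℕ) : ℤ) = T0 n by unfold T0; push_cast; rfl]

theorem inter (P : ℤ → Prop) (h : ∀ x, P x → P (T0 x)) (y : ℤ) (hy : ¬ P (2 * y + 1)) (L : ℕ) :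
    ∃ a : ℤ, ∀ x, a ≤ x → x < a + 5 + L → ¬ P x := by
  induction L with
  | zero => exact ⟨5 * y, fun x h1 h2 hx => hy (by
      have := h _ hx
      rwa [show T0 x = 2 * y + 1 by unfold T0; omega] at this)⟩
  | succ L ih =>
    obtain ⟨a, ha⟩ := ih
    exact ⟨5 * (a / 2), fun x h1 h2 hx => ha (T0 x) (by unfold T0; omega)
      (by unfold T0; push_cast at h2; omega) (h _ hx)⟩

theorem cls (m : ℕ) (hm : 2 ≤ m) (C : Set (ZMod m)) (hC : IsRec 5 T0 m C) (x : ℤ) :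
    (x : ZMod m) ∈ C ↔ ∃ y : ℤ, (x : ZMod m) = ((2 * y + 1 : ℤ) : ZMod m) := by
  haveI : NeZero m := ⟨by omega⟩
  obtain ⟨⟨i, hi⟩, hc, hr⟩ := hC
  have st : ∀ x : ℤ, (x : ZMod m) ∈ C → ((T0 x : ℤ) : ZMod m) ∈ C := fun x hx =>
    hc _ hx _ ((q_pos m hm _ _).2 ⟨x, rfl, rfl⟩)
  have h1 : ((1 : ℤ) : ZMod m) ∈ C :=
    to_one (fun x => (x : ZMod m) ∈ C) st i.val (by simpa using hi)
  constructor
  · intro hx
    rcases (hr _ h1 _ hx).cases_tail with h | ⟨c, -, h⟩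
    · exact ⟨0, by simpa using h⟩
    · obtain ⟨z, -, hz⟩ := (q_pos m hm _ _).1 h
      exact ⟨z / 5, hz.symm⟩
  · rintro ⟨y, hy⟩
    rw [hy]
    by_contra hn
    obtain ⟨a, ha⟩ := inter (fun x => (x : ZMod m) ∈ C) st y hn m
    have hm0 : (0 : ℤ) < m := by omega
    refine ha (a + (1 - a) % m) (by have := Int.emod_nonneg (1 - a) hm0.ne'; omega)
      (by have := Int.emod_lt_of_pos (1 - a) hm0; omega) ?_
    simpa using h1

end H11.Coll

open H11.Coll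

theorem Pool.Agent.Results.MP_c1c042_nt.Counter.result :
    ∃ (d : ℕ) (T : ℤ → ℤ), IsGC d T ∧ ¬ Function.Surjective T ∧ (erg d T).Finite ∧
      erg d T ⊆ {Set.univ, {x | Odd x}} := by
  have key : erg 5 T0 ⊆ {Set.univ, {x | Odd x}} := by
    rintro S ⟨m, hm, C, hC, rfl⟩
    rcases Nat.even_or_odd' m with ⟨k, rfl | rfl⟩
    · right
      ext x
      simp only [Set.mem_setOf_eq, cls _ hm C hC, ZMod.intCast_eq_intCast_iff_dvd_sub]
      constructor
      · rintro ⟨y, c, hc⟩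
        exact ⟨y - k * c, by push_cast at hc; linarith⟩
      · rintro ⟨y, rfl⟩
        exact ⟨y, by simp⟩
    · left
      ext x
      simp only [Set.mem_setOf_eq, cls _ hm C hC, ZMod.intCast_eq_intCast_iff_dvd_sub,
        Set.mem_univ, iff_true]
      exact ⟨(k + 1) * (x - 1), x - 1, by push_cast; ring⟩
  refine ⟨5, T0, ⟨by norm_num, fun _ => 2, fun i => 2 * i - 5, fun i _ => ⟨by norm_num, ?_⟩, ?_, ?_⟩,
    fun h => ?_, (Set.toFinite _).subset key, key⟩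
  · exact Int.ModEq.symm ((Int.modEq_iff_dvd).2 ⟨-1, by push_cast; ring⟩)
  · exact ⟨-2, 13, by simp⟩
  · intro x i hi hx
    unfold Int.ModEq at hx
    unfold T0
    push_cast at hx ⊢
    omega
  · obtain ⟨x, hx⟩ := h 0
    unfold T0 at hx
    omega
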